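import Pool.Agent.H818.CS.Fib

/-!
# The chain argument
-/

set_option autoImplicit false

namespace Pool.Agent.H818.CS

open Pool.Agent.N313.EX Finsupp

universe u v w z

theorem tele {D : ℕ → ℝ} (h0 : ∀ i, 0 ≤ D i) (M : ℕ) :
    ∑ i ∈ Finset.range M, (D i - D (i + 3)) ≤ D 0 + D 1 + D 2 := by
  have h : ∑ i ∈ Finset.range M, (D i - D (i + 3)) =
      (D 0 + D 1 + D 2) - (D M + D (M + 1) + D (M + 2)) := by
    induction M with
    | zero => simp
    | succ n ih =>
      rw [Finset.sum_range_succ, ih]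
      ring
  rw [h]
  have := h0 M
  have := h0 (M + 1)
  have := h0 (M + 2)
  linarith

/-- The average of the measures `W i`, `i < M`. -/
noncomputable def av {K : Type w} (M : ℕ) (W : ℕ → K →₀ ℝ) : K →₀ ℝ :=
  ∑ i ∈ Finset.range M, (M : ℝ)⁻¹ • W i

theorem av_eq {K : Type w} (M : ℕ) (W : ℕ → K →₀ ℝ) :
    av M W = Finsupp.linearCombination ℝ W (∑ i ∈ Finset.range M, Finsupp.single i ((M : ℝ)⁻¹)) := by
  rw [map_sum]
  simp [av]

theorem av_prob {K : Type w} {M : ℕ} (hM : 0 < M) (W : ℕ → K →₀ ℝ) (hW : ∀ i, IsProb (W i)) :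
    IsProb (av M W) := by
  classical
  rw [av_eq]
  refine IsProb.linComb ?_ fun i _ => hW i
  have hM' : (0 : ℝ) < M := by exact_mod_cast hM
  refine (isProb_iff _).2 ⟨fun x => ?_, ?_⟩
  · rw [Finsupp.finsetSum_apply]
    refine Finset.sum_nonneg fun i _ => ?_
    rw [Finsupp.single_apply]
    split_ifs
    · positivity
    · exact le_rfl
  · rw [map_sum]
    simp only [Finsupp.linearCombination_single, smul_eq_mul, mul_one, Finset.sum_const,
      Finset.card_range, nsmul_eq_mul]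
    field_simp

theorem av_support {K : Type w} {M : ℕ} (W : ℕ → K →₀ ℝ) {k : K} (hk : k ∈ (av M W).support) :
    ∃ i < M, k ∈ (W i).support := by
  classical
  rw [av, Finsupp.mem_support_iff, Finsupp.finsetSum_apply] at hk
  obtain ⟨i, hi, h⟩ := Finset.exists_ne_zero_of_sum_ne_zero hk
  rw [Finsupp.smul_apply, smul_eq_mul] at h
  exact ⟨i, Finset.mem_range.1 hi, Finsupp.mem_support_iff.2 (right_ne_zero_of_mul h)⟩

theorem av_close {K : Type w} {M : ℕ} (hM : 0 < M) (W W' : ℕ → K →₀ ℝ) (hW : ∀ i, IsProb (W i))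
    (hW' : ∀ i, IsProb (W' i)) {ε B : ℝ} (hε : 0 ≤ ε) (bad : ℕ → Prop) [DecidablePred bad]
    (h : ∀ i < M, ¬ bad i → n1 (W i - W' i) ≤ ε)
    (hB : (((Finset.range M).filter bad).card : ℝ) ≤ B) :
    n1 (av M W - av M W') ≤ ε + 2 * B / M := by
  classical
  have hM' : (0 : ℝ) < M := by exact_mod_cast hM
  have e1 : av M W - av M W' = ∑ i ∈ Finset.range M, (M : ℝ)⁻¹ • (W i - W' i) := by
    simp only [av, ← Finset.sum_sub_distrib, smul_sub]
  rw [e1]
  refine (n1_sum_le _ _).trans ?_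
  have h1 : ∀ i ∈ Finset.range M, n1 ((M : ℝ)⁻¹ • (W i - W' i)) ≤
      (M : ℝ)⁻¹ * ε + (if bad i then (M : ℝ)⁻¹ * 2 else 0) := by
    intro i hi
    rw [n1_smul, abs_of_pos (by positivity)]
    by_cases hb : bad i
    · rw [if_pos hb]
      have h2 : n1 (W i - W' i) ≤ 2 := by
        have h3 := n1_add_le (W i) (-(W' i))
        rw [n1_neg, (hW i).n1_eq, (hW' i).n1_eq, ← sub_eq_add_neg] at h3
        linarith
      have h4 : (M : ℝ)⁻¹ * n1 (W i - W' i) ≤ (M : ℝ)⁻¹ * 2 :=
        mul_le_mul_of_nonneg_left h2 (by positivity)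
      have h5 : 0 ≤ (M : ℝ)⁻¹ * ε := by positivity
      linarith
    · rw [if_neg hb, add_zero]
      exact mul_le_mul_of_nonneg_left (h i (Finset.mem_range.1 hi) hb) (by positivity)
  refine (Finset.sum_le_sum h1).trans ?_
  rw [Finset.sum_add_distrib, Finset.sum_const, Finset.card_range, nsmul_eq_mul,
    ← Finset.sum_filter, Finset.sum_const, nsmul_eq_mul]
  have e2 : (M : ℝ) * ((M : ℝ)⁻¹ * ε) = ε := by field_simp
  rw [e2]
  have h6 : (((Finset.range M).filter bad).card : ℝ) * ((M : ℝ)⁻¹ * 2) ≤ B * ((M : ℝ)⁻¹ * 2) :=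
    mul_le_mul_of_nonneg_right hB (by positivity)
  have e3 : B * ((M : ℝ)⁻¹ * 2) = 2 * B / M := by field_simp
  linarith

/-- The chain argument: `m` is a midpoint map, `Fn` is a strictly convex function,
`ζ` rounds the points to points of `K`. -/
theorem chain {G : Type u} [Group G] {X : Type v} {K : Type w} [MulAction G X] [MulAction G K]
    (m : X → X → X)
    (ζ : X → K →₀ ℝ) (hζ : ∀ x, IsProb (ζ x))
    (heq : ∀ (g : G) x, ζ (g • x) = (ζ x).mapDomain fun k => g • k)
    (Fn : X → ℝ) (hF : ∀ x, 0 ≤ Fn x) (o : X) (r : ℝ) (F : Finset G) (ε : ℝ) (hε : 0 < ε)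
    (conv : ∃ η : ℝ, 0 < η ∧ ∀ (g : G) (p q : X), Fn (g • p) ≤ r →
      Fn (g • q) ≤ r → Fn (g • p) ≤ Fn (g • m p q) + η → Fn (g • q) ≤ Fn (g • m p q) + η →
      n1 (ζ (g • p) - ζ (g • q)) ≤ ε / 2) :
    ∃ (T : Finset K) (ν : G → K →₀ ℝ), (∀ k ∈ T, ∃ x, k ∈ (ζ x).support) ∧
      (∀ g, IsProb (ν g)) ∧ (∀ g, ∀ k ∈ (ν g).support, g⁻¹ • k ∈ T) ∧
      ∀ g, Fn (g • o) ≤ r → ∀ f ∈ F, Fn ((g * f) • o) ≤ r → n1 (ν g - ν (g * f)) ≤ ε := by
  classical
  have hζs : ∀ (g : G) x, ∀ k ∈ (ζ (g • x)).support, g⁻¹ • k ∈ (ζ x).support := by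
    intro g x k hk
    rw [heq] at hk
    obtain ⟨k', hk', rfl⟩ := Finset.mem_image.1 (Finsupp.mapDomain_support hk)
    rwa [inv_smul_smul]
  obtain ⟨η, hη, hconv⟩ := conv
  -- the nested finite sets
  let st : Finset X → Finset X := fun A => A ∪ (F ×ˢ A).image (fun p => p.1 • p.2) ∪
    (F ×ˢ A).image (fun p => p.1⁻¹ • p.2) ∪ (A ×ˢ A).image (fun p => m p.1 p.2)
  let E : ℕ → Finset X := fun n => st^[n] {o}
  have hE1 : ∀ n, E (n + 1) = st (E n) := fun n => by
    simp only [E, Function.iterate_succ_apply']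
  have hEs : ∀ n, E n ⊆ E (n + 1) := by
    intro n x hx
    rw [hE1]
    simp only [st, Finset.mem_union]
    exact Or.inl (Or.inl (Or.inl hx))
  have hEf : ∀ n, ∀ f ∈ F, ∀ x ∈ E n, f • x ∈ E (n + 1) := by
    intro n f hf x hx
    rw [hE1]
    simp only [st, Finset.mem_union]
    exact Or.inl (Or.inl (Or.inr (Finset.mem_image.2 ⟨(f, x), Finset.mem_product.2 ⟨hf, hx⟩, rfl⟩)))
  have hEi : ∀ n, ∀ f ∈ F, ∀ x ∈ E n, f⁻¹ • x ∈ E (n + 1) := by
    intro n f hf x hx
    rw [hE1]
    simp only [st, Finset.mem_union]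
    exact Or.inl (Or.inr (Finset.mem_image.2 ⟨(f, x), Finset.mem_product.2 ⟨hf, hx⟩, rfl⟩))
  have hEm : ∀ n, ∀ x ∈ E n, ∀ y ∈ E n, m x y ∈ E (n + 1) := by
    intro n x hx y hy
    rw [hE1]
    simp only [st, Finset.mem_union]
    exact Or.inr (Finset.mem_image.2 ⟨(x, y), Finset.mem_product.2 ⟨hx, hy⟩, rfl⟩)
  have ho : ∀ n, o ∈ E n := by
    intro n
    induction n with
    | zero => simp [E]
    | succ n ih => exact hEs n ih
  have hne : ∀ n, (E n).Nonempty := fun n => ⟨o, ho n⟩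
  -- the minima
  let D : G → ℕ → ℝ := fun g i => (E i).inf' (hne i) fun x => Fn (g • x)
  have hDp : ∀ g i, ∃ x ∈ E i, Fn (g • x) = D g i := by
    intro g i
    obtain ⟨x, hx, h⟩ := Finset.exists_mem_eq_inf' (hne i) fun x => Fn (g • x)
    exact ⟨x, hx, h.symm⟩
  have hDl : ∀ g i, ∀ x ∈ E i, D g i ≤ Fn (g • x) := fun g i x hx =>
    Finset.inf'_le (fun x => Fn (g • x)) hx
  have hD0 : ∀ g i, 0 ≤ D g i := by
    intro g i
    obtain ⟨x, -, h⟩ := hDp g i
    rw [← h]
    exact hF _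
  have hDa : ∀ g i, D g (i + 1) ≤ D g i := by
    intro g i
    obtain ⟨x, hx, h⟩ := hDp g i
    rw [← h]
    exact hDl g _ x (hEs i hx)
  have hDo : ∀ g i, D g i ≤ Fn (g • o) := fun g i => hDl g i o (ho i)
  have hDf : ∀ g, ∀ f ∈ F, ∀ i, D (g * f) (i + 1) ≤ D g i := by
    intro g f hf i
    obtain ⟨x, hx, h⟩ := hDp g i
    rw [← h]
    have := hDl (g * f) (i + 1) (f⁻¹ • x) (hEi i f hf x hx)
    rwa [mul_smul, smul_inv_smul] at this
  choose x hxE hxD using hDp
  -- the number of measures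
  set M : ℕ := ⌈12 * |r| / (η * ε)⌉₊ + 1 with hM
  have hMpos : 0 < M := by omega
  have hMr : (0 : ℝ) < M := by exact_mod_cast hMpos
  have hMge : 12 * |r| / (η * ε) ≤ M := by
    rw [hM]
    push_cast
    exact (Nat.le_ceil _).trans (by linarith)
  refine ⟨(E M).biUnion fun x => (ζ x).support, fun g => av M fun i => ζ (g • x g (i + 1)),
    fun k hk => ?_, fun g => av_prob hMpos _ fun i => hζ _, ?_, ?_⟩
  · obtain ⟨x, -, hx⟩ := Finset.mem_biUnion.1 hk
    exact ⟨x, hx⟩
  · intro g k hk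
    obtain ⟨i, hi, hk⟩ := av_support _ hk
    have hmono : ∀ a b, a ≤ b → E a ⊆ E b := fun a b hab => by
      induction b, hab using Nat.le_induction with
      | base => exact subset_rfl
      | succ n _ ih => exact ih.trans (hEs n)
    exact Finset.mem_biUnion.2 ⟨x g (i + 1), hmono (i + 1) M (by omega) (hxE g _), hζs g _ k hk⟩
  · intro g hg f hf hgf
    have h1 := av_close hMpos (fun i => ζ (g • x g (i + 1)))
      (fun i => ζ ((g * f) • x (g * f) (i + 1))) (fun _ => hζ _) (fun _ => hζ _)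
      (ε := ε / 2) (B := 3 * |r| / η) (by positivity) (fun i => η < D g i - D g (i + 3)) ?_ ?_
    · refine h1.trans ?_
      have h2 : 2 * (3 * |r| / η) / M ≤ ε / 2 := by
        rw [div_le_iff₀ hMr]
        have h3 : ε / 2 * (12 * |r| / (η * ε)) ≤ ε / 2 * M :=
          mul_le_mul_of_nonneg_left hMge (by positivity)
        have h4 : ε / 2 * (12 * |r| / (η * ε)) = 2 * (3 * |r| / η) := by
          field_simp
          ring
        linarith
      linarith
    · intro i _ hbad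
      have hbad' : D g i - D g (i + 3) ≤ η := not_lt.1 hbad
      have e1 : (g * f) • x (g * f) (i + 1) = g • (f • x (g * f) (i + 1)) := mul_smul _ _ _
      have h2 : D g (i + 3) ≤ Fn (g • m (x g (i + 1)) (f • x (g * f) (i + 1))) :=
        hDl g _ _ (hEm (i + 2) _ (hEs _ (hxE g (i + 1))) _
          (hEf (i + 1) f hf _ (hxE (g * f) (i + 1))))
      have h3 : Fn (g • x g (i + 1)) ≤ D g i := by
        rw [hxD]
        exact hDa g i
      have h4 : Fn ((g * f) • x (g * f) (i + 1)) ≤ D g i := by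
        rw [hxD]
        exact hDf g f hf i
      have h5 : D g i ≤ r := (hDo g i).trans hg
      rw [e1] at h4 ⊢
      exact hconv g _ _ (h3.trans h5) (h4.trans h5) (by linarith) (by linarith)
    · have h2 := tele (hD0 g) M
      have h3 : D g 0 + D g 1 + D g 2 ≤ 3 * |r| := by
        have := (hDo g 0).trans hg
        have := (hDo g 1).trans hg
        have := (hDo g 2).trans hg
        have := le_abs_self r
        linarith
      have h4 : ∀ i, 0 ≤ D g i - D g (i + 3) := fun i => by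
        have := hDa g i
        have := hDa g (i + 1)
        have := hDa g (i + 2)
        linarith
      have h5 : (((Finset.range M).filter fun i => η < D g i - D g (i + 3)).card : ℝ) * η ≤
          ∑ i ∈ Finset.range M, (D g i - D g (i + 3)) := by
        rw [← nsmul_eq_mul]
        refine (Finset.card_nsmul_le_sum _ (fun i => D g i - D g (i + 3)) η ?_).trans ?_
        · intro i hi
          exact (Finset.mem_filter.1 hi).2.le
        · exact Finset.sum_le_sum_of_subset_of_nonneg (Finset.filter_subset _ _)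
            fun i _ _ => h4 i
      rw [le_div_iff₀ hη]
      linarith

end Pool.Agent.H818.CS
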