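import Pool.Agent.H818.CS.Ker

/-!
# Uniform coarse embeddability of families of subsets of a group
-/

set_option autoImplicit false

namespace Pool.Agent.H818.CS

open Pool.Agent.N313.EX Finsupp
open Pool.Agent.N506.EX (CoarselyEmbeds)

universe u v w z

/-- Uniform coarse embeddability of a family of subsets of the group `G` (with its left invariant
coarse structure), in terms of kernels. -/
def UK {G : Type u} [Group G] {ι : Type v} (P : ι → Set G) : Prop :=
  ∀ (F : Finset G) (ε : ℝ), 0 < ε → ∃ E : ℝ → Finset G, ∀ i, ∃ k : G → G → ℝ, Ker k ∧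
    (∀ g ∈ P i, k g g = 1) ∧ (∀ g ∈ P i, ∀ f ∈ F, g * f ∈ P i → 1 - ε ≤ k g (g * f)) ∧
    ∀ δ : ℝ, 0 < δ → ∀ g ∈ P i, ∀ h ∈ P i, δ ≤ k g h → g⁻¹ * h ∈ E δ

section

variable {G : Type u} [Group G]

theorem UK.mono {ι : Type v} {κ : Type w} {P : ι → Set G} {Q : κ → Set G} (h : UK P)
    (hQ : ∀ j, ∃ i, Q j ⊆ P i) : UK Q := by
  intro F ε hε
  obtain ⟨E, hE⟩ := h F ε hε
  refine ⟨E, fun j => ?_⟩
  obtain ⟨i, hi⟩ := hQ j
  obtain ⟨k, h1, h2, h3, h4⟩ := hE i
  exact ⟨k, h1, fun g hg => h2 g (hi hg), fun g hg f hf hgf => h3 g (hi hg) f hf (hi hgf),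
    fun δ hδ g hg h hh => h4 δ hδ g (hi hg) h (hi hh)⟩

theorem UK.translate {ι : Type v} {P : ι → Set G} (h : UK P) :
    UK (fun p : G × ι => {g | p.1⁻¹ * g ∈ P p.2}) := by
  intro F ε hε
  obtain ⟨E, hE⟩ := h F ε hε
  refine ⟨E, fun p => ?_⟩
  obtain ⟨a, i⟩ := p
  obtain ⟨k, h1, h2, h3, h4⟩ := hE i
  refine ⟨fun g h => k (a⁻¹ * g) (a⁻¹ * h), h1.comp _, fun g hg => h2 _ hg,
    fun g hg f hf hgf => ?_, fun δ hδ g hg h hh hk => ?_⟩
  · have e : a⁻¹ * (g * f) = a⁻¹ * g * f := by group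
    simp only [Set.mem_ofPred_eq] at hg hgf
    beta_reduce
    rw [e] at hgf ⊢
    exact h3 _ hg f hf hgf
  · have := h4 δ hδ _ hg _ hh hk
    have e : (a⁻¹ * g)⁻¹ * (a⁻¹ * h) = g⁻¹ * h := by group
    rwa [e] at this

/-- The Bhattacharyya coefficient. -/
lemma bc_ge {Y : Type w} {a b : Y →₀ ℝ} (ha : IsProb a) (hb : IsProb b) (S : Finset Y)
    (haS : a.support ⊆ S) (hbS : b.support ⊆ S) :
    1 - n1 (a - b) / 2 ≤ ∑ y ∈ S, Real.sqrt (a y) * Real.sqrt (b y) := by
  classical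
  have h1 : ∑ y ∈ S, a y = 1 := by
    rw [← ha.2]
    exact (Finsupp.sum_of_support_subset a haS (fun _ t => t) (fun _ _ => rfl)).symm
  have h2 : ∑ y ∈ S, b y = 1 := by
    rw [← hb.2]
    exact (Finsupp.sum_of_support_subset b hbS (fun _ t => t) (fun _ _ => rfl)).symm
  have h3 : n1 (a - b) = ∑ y ∈ S, |(a - b) y| := by
    refine n1_eq_sum _ S ?_
    intro y hy
    by_contra hc
    rw [Finsupp.mem_support_iff, Finsupp.sub_apply, Finsupp.notMem_support_iff.1 fun h => hc (haS h),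
      Finsupp.notMem_support_iff.1 fun h => hc (hbS h), sub_zero] at hy
    exact hy rfl
  have h4 : ∀ y ∈ S, (a y + b y) / 2 - |(a - b) y| / 2 ≤ Real.sqrt (a y) * Real.sqrt (b y) := by
    intro y _
    have h5 := Pool.Agent.N506.EX.sqrt_sub_sq_le (a y) (b y) (ha.1 y) (hb.1 y)
    have e1 := Real.mul_self_sqrt (ha.1 y)
    have e2 := Real.mul_self_sqrt (hb.1 y)
    rw [Finsupp.sub_apply]
    nlinarith
  have h5 := Finset.sum_le_sum h4
  rw [Finset.sum_sub_distrib, ← Finset.sum_div, ← Finset.sum_div, Finset.sum_add_distrib, h1, h2,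
    ← h3] at h5
  linarith

lemma bc_le {Y : Type w} {a b : Y →₀ ℝ} (ha : IsProb a) (hb : IsProb b) (S : Finset Y)
    (haS : a.support ⊆ S) (hbS : b.support ⊆ S) :
    ∑ y ∈ S, Real.sqrt (a y) * Real.sqrt (b y) ≤ 1 := by
  classical
  have h1 : ∑ y ∈ S, a y = 1 := by
    rw [← ha.2]
    exact (Finsupp.sum_of_support_subset a haS (fun _ t => t) (fun _ _ => rfl)).symm
  have h2 : ∑ y ∈ S, b y = 1 := by
    rw [← hb.2]
    exact (Finsupp.sum_of_support_subset b hbS (fun _ t => t) (fun _ _ => rfl)).symm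
  have h4 : ∀ y ∈ S, Real.sqrt (a y) * Real.sqrt (b y) ≤ (a y + b y) / 2 := by
    intro y _
    have e1 := Real.mul_self_sqrt (ha.1 y)
    have e2 := Real.mul_self_sqrt (hb.1 y)
    nlinarith [sq_nonneg (Real.sqrt (a y) - Real.sqrt (b y))]
  refine (Finset.sum_le_sum h4).trans ?_
  rw [← Finset.sum_div, Finset.sum_add_distrib, h1, h2]
  norm_num

/-- The fibering theorem for coarse embeddability. -/
theorem UK.fib {P : Set G} (h : ∀ (F : Finset G) (ε : ℝ), 0 < ε →
    ∃ (Y : Type w) (Q : Y → Set G) (b : G → Y →₀ ℝ), UK Q ∧ (∀ g ∈ P, IsProb (b g)) ∧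
      (∀ g ∈ P, ∀ y ∈ (b g).support, g ∈ Q y) ∧
      ∀ g ∈ P, ∀ f ∈ F, g * f ∈ P → n1 (b g - b (g * f)) ≤ ε) :
    UK (fun _ : Unit => P) := by
  classical
  intro F ε hε
  obtain ⟨Y, Q, b, hQ, hb1, hb2, hb3⟩ := h F (min ε 1) (by positivity)
  obtain ⟨E, hE⟩ := hQ F (min (ε / 2) 1) (by positivity)
  choose k h1 h2 h3 h4 using hE
  -- the functions
  let φ : G → Y → ℝ := fun g y => if g ∈ P then Real.sqrt (b g y) else 0
  have hφ : ∀ g y, y ∉ (b g).support → φ g y = 0 := by
    intro g y hy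
    simp only [φ]
    split_ifs
    · rw [Finsupp.notMem_support_iff.1 hy, Real.sqrt_zero]
    · rfl
  have hφP : ∀ g ∈ P, ∀ y, φ g y = Real.sqrt (b g y) := fun g hg y => if_pos hg
  let K : G → G → ℝ := fun g h => ∑ y ∈ (b g).support, φ g y * φ h y * k y g h
  have hK : ∀ (S : Finset Y) (g h : G), (b g).support ⊆ S →
      K g h = ∑ y ∈ S, φ g y * φ h y * k y g h := by
    intro S g h hS
    refine Finset.sum_subset hS fun y _ hy => ?_
    rw [hφ g y hy, zero_mul, zero_mul]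
  refine ⟨fun δ => E (δ / 2), fun _ => ⟨K, ?_, ?_, ?_, ?_⟩⟩
  · refine Ker.of_local fun A => ?_
    refine ⟨fun g h => ∑ y ∈ A.biUnion fun g => (b g).support, φ g y * φ h y * k y g h,
      Ker.sum _ fun y _ => (h1 y).mul_fun fun g => φ g y, fun g hg h hh => ?_⟩
    exact hK _ g h fun y hy => Finset.mem_biUnion.2 ⟨g, hg, hy⟩
  · intro g hg
    have h5 : ∀ y ∈ (b g).support, φ g y * φ g y * k y g g = b g y := by
      intro y hy
      rw [hφP g hg, h2 y g (hb2 g hg y hy), mul_one, Real.mul_self_sqrt ((hb1 g hg).1 y)]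
    show ∑ y ∈ (b g).support, φ g y * φ g y * k y g g = 1
    rw [Finset.sum_congr rfl h5]
    exact (hb1 g hg).2
  · intro g hg f hf hgf
    set S := (b g).support ∪ (b (g * f)).support with hS
    rw [hK S g (g * f) Finset.subset_union_left]
    have h5 : ∀ y ∈ S, (1 - min (ε / 2) 1) * (Real.sqrt (b g y) * Real.sqrt (b (g * f) y)) ≤
        φ g y * φ (g * f) y * k y g (g * f) := by
      intro y _
      rw [hφP g hg, hφP _ hgf]
      have p1 := Real.sqrt_nonneg (b g y)
      have p2 := Real.sqrt_nonneg (b (g * f) y)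
      by_cases hy : y ∈ (b g).support
      · by_cases hy' : y ∈ (b (g * f)).support
        · have h6 := h3 y g (hb2 g hg y hy) f hf (hb2 _ hgf y hy')
          have h7 : 0 ≤ Real.sqrt (b g y) * Real.sqrt (b (g * f) y) := mul_nonneg p1 p2
          nlinarith
        · rw [Finsupp.notMem_support_iff.1 hy', Real.sqrt_zero]
          simp
      · rw [Finsupp.notMem_support_iff.1 hy, Real.sqrt_zero]
        simp
    refine le_trans ?_ (Finset.sum_le_sum h5)
    rw [← Finset.mul_sum]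
    have h6 := bc_ge (hb1 g hg) (hb1 _ hgf) S Finset.subset_union_left Finset.subset_union_right
    have h7 := hb3 g hg f hf hgf
    have h8 : min ε 1 ≤ ε := min_le_left _ _
    have h9 : min (ε / 2) 1 ≤ ε / 2 := min_le_left _ _
    have h10 : min (ε / 2) 1 ≤ 1 := min_le_right _ _
    have h11 : 0 ≤ min (ε / 2) 1 := by positivity
    have h12 := n1_nonneg (b g - b (g * f))
    nlinarith
  · intro δ hδ g hg h hh hδk
    by_contra hcon
    set S := (b g).support ∪ (b h).support with hS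
    rw [hK S g h Finset.subset_union_left] at hδk
    have h5 : ∀ y ∈ S, φ g y * φ h y * k y g h ≤
        δ / 2 * (Real.sqrt (b g y) * Real.sqrt (b h y)) := by
      intro y _
      rw [hφP g hg, hφP _ hh]
      have p1 := Real.sqrt_nonneg (b g y)
      have p2 := Real.sqrt_nonneg (b h y)
      by_cases hy : y ∈ (b g).support
      · by_cases hy' : y ∈ (b h).support
        · by_cases h6 : δ / 2 ≤ k y g h
          · exact absurd (h4 y (δ / 2) (by positivity) g (hb2 g hg y hy) h (hb2 _ hh y hy') h6) hcon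
          · push Not at h6
            have h7 : 0 ≤ Real.sqrt (b g y) * Real.sqrt (b h y) := mul_nonneg p1 p2
            nlinarith
        · rw [Finsupp.notMem_support_iff.1 hy', Real.sqrt_zero]
          simp
      · rw [Finsupp.notMem_support_iff.1 hy, Real.sqrt_zero]
        simp
    have h6 := Finset.sum_le_sum h5
    rw [← Finset.mul_sum] at h6
    have h7 := bc_le (hb1 g hg) (hb1 _ hh) S Finset.subset_union_left Finset.subset_union_right
    nlinarith

/-- Unions of cosets of stabilizers. -/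
theorem UK.of_action {K : Type w} [MulAction G K] (T : Finset K)
    (hK : ∀ k ∈ T, UK (fun _ : Unit => (Set.univ : Set (MulAction.stabilizer G k)))) :
    UK (fun k : K => {g : G | g⁻¹ • k ∈ T}) := by
  classical
  intro F ε hε
  -- the transporters
  let h : K → K → G := fun s t => if hst : ∃ h : G, h • s = t then hst.choose else 1
  have hh : ∀ (s t : K) (a : G), a • s = t → h s t • s = t := by
    intro s t a ha
    have hst : ∃ h : G, h • s = t := ⟨a, ha⟩
    simp only [h, dif_pos hst]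
    exact hst.choose_spec
  let FF : (s : K) → Finset (MulAction.stabilizer G s) := fun s =>
    ((T ×ˢ F ×ˢ T).image fun p : K × G × K => (h s p.1)⁻¹ * p.2.1 * h s p.2.2).subtype
      (fun x => x ∈ MulAction.stabilizer G s)
  have hm : ∀ s : K, ∃ (E : ℝ → Finset (MulAction.stabilizer G s))
      (k : MulAction.stabilizer G s → MulAction.stabilizer G s → ℝ), s ∈ T →
      Ker k ∧ (∀ x, k x x = 1) ∧ (∀ x, ∀ f ∈ FF s, 1 - ε ≤ k x (x * f)) ∧
      ∀ δ : ℝ, 0 < δ → ∀ x y, δ ≤ k x y → x⁻¹ * y ∈ E δ := by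
    intro s
    by_cases hs : s ∈ T
    · obtain ⟨E, hE⟩ := hK s hs (FF s) ε hε
      obtain ⟨k, h1, h2, h3, h4⟩ := hE ()
      exact ⟨E, k, fun _ => ⟨h1, fun x => h2 x trivial, fun x f hf => h3 x trivial f hf trivial,
        fun δ hδ x y => h4 δ hδ x trivial y trivial⟩⟩
    · exact ⟨fun _ => ∅, fun _ _ => 0, fun h => absurd h hs⟩
  choose EE k hk using hm
  refine ⟨fun δ => (T ×ˢ T ×ˢ T).biUnion fun p => (EE p.1 δ).image
    fun x : MulAction.stabilizer G p.1 => h p.1 p.2.1 * (x : G) * (h p.1 p.2.2)⁻¹, fun z => ?_⟩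
  by_cases hne : ∃ g0 : G, g0⁻¹ • z ∈ T
  · obtain ⟨g0, hg0⟩ := hne
    set s := g0⁻¹ • z with hs
    obtain ⟨h1, h2, h3, h4⟩ := hk s hg0
    have hq : ∀ g : G, g0⁻¹ * g * h s (g⁻¹ • z) ∈ MulAction.stabilizer G s := by
      intro g
      have h1 : h s (g⁻¹ • z) • s = g⁻¹ • z :=
        hh s _ (g⁻¹ * g0) (by rw [hs, mul_smul, smul_inv_smul])
      rw [MulAction.mem_stabilizer_iff, mul_smul, h1, mul_smul, smul_inv_smul]
    refine ⟨fun g g' => k s ⟨_, hq g⟩ ⟨_, hq g'⟩,
      h1.comp fun g => (⟨_, hq g⟩ : MulAction.stabilizer G s), fun g _ => h2 _, ?_, ?_⟩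
    · intro g hg f hf hgf
      have e : (⟨g0⁻¹ * (g * f) * h s ((g * f)⁻¹ • z), hq (g * f)⟩ : MulAction.stabilizer G s) =
          ⟨g0⁻¹ * g * h s (g⁻¹ • z), hq g⟩ *
          ⟨(h s (g⁻¹ • z))⁻¹ * f * h s ((g * f)⁻¹ • z), by
            have h5 := mul_mem (inv_mem (hq g)) (hq (g * f))
            have e6 : (g0⁻¹ * g * h s (g⁻¹ • z))⁻¹ * (g0⁻¹ * (g * f) * h s ((g * f)⁻¹ • z)) =
              (h s (g⁻¹ • z))⁻¹ * f * h s ((g * f)⁻¹ • z) := by group
            rw [e6] at h5
            exact h5⟩ := by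
        apply Subtype.ext
        simp only [Subgroup.coe_mul]
        group
      beta_reduce
      rw [e]
      refine h3 _ _ ?_
      exact Finset.mem_subtype.2 (Finset.mem_image.2 ⟨(g⁻¹ • z, f, (g * f)⁻¹ • z),
        Finset.mem_product.2 ⟨hg, Finset.mem_product.2 ⟨hf, hgf⟩⟩, rfl⟩)
    · intro δ hδ g hg g' hg' hδk
      have h5 := h4 δ hδ _ _ hδk
      refine Finset.mem_biUnion.2 ⟨(s, g⁻¹ • z, g'⁻¹ • z), Finset.mem_product.2 ⟨hg0,
        Finset.mem_product.2 ⟨hg, hg'⟩⟩, Finset.mem_image.2 ⟨_, h5, ?_⟩⟩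
      simp only [Subgroup.coe_mul, Subgroup.coe_inv]
      group
  · refine ⟨fun _ _ => 0, by simpa using Ker.one.smul (G := G) (c := 0) le_rfl,
      fun g hg => absurd ⟨g, hg⟩ hne, fun g hg => absurd ⟨g, hg⟩ hne,
      fun _ _ g hg => absurd ⟨g, hg⟩ hne⟩

/-- Coarsely embeddable groups. -/
theorem UK.of_coarselyEmbeds (h : CoarselyEmbeds G) : UK (fun _ : Unit => (Set.univ : Set G)) := by
  classical
  obtain ⟨H, _, _, _, f, hf1, hf2⟩ := h
  choose C hC using hf1
  intro F ε hε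
  obtain ⟨D, hD⟩ : ∃ D : ℝ, 0 ≤ D ∧ ∀ s ∈ F, C s ≤ D := by
    obtain ⟨R, hR⟩ := (F.image C).bddAbove
    exact ⟨max R 0, le_max_right _ _, fun s hs =>
      (hR (Finset.mem_coe.2 (Finset.mem_image_of_mem _ hs))).trans (le_max_left _ _)⟩
  set t : ℝ := ε / (D ^ 2 + 1) with ht
  have ht0 : 0 < t := by positivity
  refine ⟨fun δ => (hf2 (Real.sqrt (-Real.log δ / t))).toFinset, fun _ =>
    ⟨_, Ker.schoenberg f ht0.le, fun g _ => by simp, fun g _ s hs _ => ?_,
      fun δ hδ g _ h _ hδk => ?_⟩⟩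
  · have h1 : ‖f g - f (g * s)‖ ≤ D := by
      rw [norm_sub_rev]
      exact (hC s g).trans (hD.2 s hs)
    have h2 : t * ‖f g - f (g * s)‖ ^ 2 ≤ ε := by
      have h3 : ‖f g - f (g * s)‖ ^ 2 ≤ D ^ 2 := pow_le_pow_left₀ (norm_nonneg _) h1 2
      have h4 : t * (D ^ 2 + 1) = ε := by
        rw [ht]
        field_simp
      nlinarith
    have h3 := Real.add_one_le_exp (-t * ‖f g - f (g * s)‖ ^ 2)
    linarith
  · rw [Set.Finite.mem_toFinset]
    refine ⟨g, ?_⟩
    rw [mul_inv_cancel_left, norm_sub_rev]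
    apply Real.le_sqrt_of_sq_le
    rw [le_div_iff₀ ht0]
    have h1 := Real.log_le_log hδ hδk
    rw [Real.log_exp] at h1
    linarith

/-- The converse, for countable groups. -/
theorem coarselyEmbeds_of_UK [Countable G] (h : UK (fun _ : Unit => (Set.univ : Set G))) :
    CoarselyEmbeds G := by
  classical
  obtain ⟨q, hq⟩ := exists_surjective_nat G
  let F : ℕ → Finset G := fun k => (Finset.range k).image q
  have hF : ∀ s : G, ∃ m, ∀ k, m ≤ k → s ∈ F k := by
    intro s
    obtain ⟨j, rfl⟩ := hq s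
    exact ⟨j + 1, fun k hk => Finset.mem_image_of_mem _ (Finset.mem_range.mpr (by omega))⟩
  choose m hm using hF
  choose E hE using fun n : ℕ => h (F n) ((1 / 2) ^ n) (by positivity)
  choose k h1 h2 h3 h4 using fun n => hE n ()
  have k1 : ∀ n g, k n g g = 1 := fun n g => h2 n g trivial
  have k2 : ∀ n g, ∀ s ∈ F n, 1 - k n g (g * s) ≤ (1 / 2) ^ n := fun n g s hs => by
    have := h3 n g trivial s hs trivial
    linarith
  -- the kernels are at most one
  have kT : ∀ (n : ℕ) (g h : G), BK (k n) (single g 1 - single h 1) (single g 1 - single h 1) =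
      2 * (1 - k n g h) := by
    intro n g h
    simp only [map_sub, LinearMap.sub_apply, BK_single, k1, (h1 n).symm h g]
    ring
  have k3 : ∀ n g h, 0 ≤ 1 - k n g h := by
    intro n g h
    have h5 := (h1 n).psd (single g 1 - single h 1)
    rw [kT] at h5
    linarith
  have k3' : ∀ n g h, 1 - k n g h ≤ 2 := by
    intro n g h
    have h5 := (h1 n).psd (single g 1 + single h 1)
    have e : BK (k n) (single g 1 + single h 1) (single g 1 + single h 1) =
        2 * (1 + k n g h) := by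
      simp only [map_add, LinearMap.add_apply, BK_single, k1, (h1 n).symm h g]
      ring
    rw [e] at h5
    linarith
  have k2' : ∀ g h, ∀ n, m (g⁻¹ * h) ≤ n → 1 - k n g h ≤ (1 / 2) ^ n := by
    intro g h n hn
    have h5 := k2 n g (g⁻¹ * h) (hm _ n hn)
    rwa [mul_inv_cancel_left] at h5
  have hgeo : Summable fun n : ℕ => ((1 : ℝ) / 2) ^ n :=
    summable_geometric_of_lt_one (by norm_num) (by norm_num)
  -- the dominating sequence
  have hdom : ∀ g h n, 1 - k n g h ≤ (if n < m (g⁻¹ * h) then (2 : ℝ) else 0) + (1 / 2) ^ n := by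
    intro g h n
    split_ifs with hn
    · have := k3' n g h
      have : (0 : ℝ) < (1 / 2) ^ n := by positivity
      linarith
    · rw [zero_add]
      exact k2' g h n (not_lt.1 hn)
  have hfin : ∀ j : ℕ, Summable fun n => if n < j then (2 : ℝ) else 0 := fun j =>
    summable_of_ne_finset_zero (s := Finset.range j) fun n hn => by
      rw [Finset.mem_range] at hn
      rw [if_neg hn]
  have hs : ∀ g h, Summable fun n => 1 - k n g h := fun g h =>
    Summable.of_nonneg_of_le (fun n => k3 n g h) (hdom g h) ((hfin _).add hgeo)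
  let N : G → G → ℝ := fun g h => ∑' n, (1 - k n g h)
  have hN : ∀ g h, HasSum (fun n => 1 - k n g h) (N g h) := fun g h => (hs g h).hasSum
  have hNself : ∀ g, N g g = 0 := fun g => by
    have : (fun n => 1 - k n g g) = fun _ => 0 := by
      funext n
      rw [k1, sub_self]
    show ∑' n, (1 - k n g g) = 0
    rw [this, tsum_zero]
  have hNsymm : ∀ g h, N g h = N h g := fun g h => tsum_congr fun n => by rw [(h1 n).symm]
  have hNbound : ∀ g s, N g (g * s) ≤ 2 * m s + 2 := by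
    intro g s
    have e : g⁻¹ * (g * s) = s := by group
    have h5 := hdom g (g * s)
    rw [e] at h5
    have h6 := (hs g (g * s)).tsum_le_tsum h5 ((hfin _).add hgeo)
    refine h6.trans ?_
    rw [((hfin _).tsum_add hgeo), tsum_geometric_two,
      tsum_eq_sum (s := Finset.range (m s)) fun n hn => by
        rw [Finset.mem_range] at hn
        rw [if_neg hn]]
    rw [Finset.sum_congr rfl fun n hn => if_pos (Finset.mem_range.1 hn)]
    simp only [Finset.sum_const, Finset.card_range, nsmul_eq_mul]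
    linarith
  have hK : Ker fun g h => N g 1 + N h 1 - N g h := by
    refine Ker.of_hasSum (K := fun n g h => BK (k n) (single g 1 - single 1 1)
      (single h 1 - single 1 1)) (fun n => (h1 n).pull _) fun g h => ?_
    have e : (fun n => BK (k n) (single g 1 - single 1 1) (single h 1 - single 1 1)) =
        fun n => (1 - k n g 1) + (1 - k n h 1) - (1 - k n g h) := by
      funext n
      simp only [map_sub, LinearMap.sub_apply, BK_single, k1, (h1 n).symm 1 h]
      ring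
    rw [e]
    exact ((hN g 1).add (hN h 1)).sub (hN g h)
  obtain ⟨H, i1, i2, i3, ξ, hξ⟩ := hK.kolmogorov
  have hdist : ∀ g h, ‖ξ g - ξ h‖ ^ 2 = 2 * N g h := by
    intro g h
    rw [norm_sub_sq_real, ← real_inner_self_eq_norm_sq, ← real_inner_self_eq_norm_sq, hξ, hξ, hξ,
      hNself, hNself]
    ring
  refine ⟨H, i1, i2, i3, ξ, fun s => ⟨Real.sqrt (2 * (2 * m s + 2)), fun g => ?_⟩, fun C => ?_⟩
  · apply Real.le_sqrt_of_sq_le
    rw [hdist, hNsymm]
    have := hNbound g s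
    linarith
  · obtain ⟨j, hj⟩ := exists_nat_gt (C ^ 2)
    refine ((Finset.range j).biUnion fun n => E n (1 / 2)).finite_toSet.subset ?_
    rintro s ⟨g, hg⟩
    by_contra hcon
    simp only [Finset.coe_biUnion, Set.mem_iUnion, Finset.mem_coe, not_exists] at hcon
    have h5 : ∀ n ∈ Finset.range j, (1 : ℝ) / 2 ≤ 1 - k n g (g * s) := by
      intro n hn
      by_contra h6
      push Not at h6
      have h7 := h4 n (1 / 2) (by norm_num) g trivial (g * s) trivial (by linarith)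
      rw [inv_mul_cancel_left] at h7
      exact hcon n hn h7
    have h6 := Finset.card_nsmul_le_sum _ _ _ h5
    have h7 : ∑ n ∈ Finset.range j, (1 - k n g (g * s)) ≤ N g (g * s) :=
      (hs g (g * s)).sum_le_tsum _ fun n _ => k3 n g _
    rw [Finset.card_range, nsmul_eq_mul] at h6
    have h8 : ‖ξ (g * s) - ξ g‖ ^ 2 ≤ C ^ 2 := pow_le_pow_left₀ (norm_nonneg _) hg 2
    rw [hdist, hNsymm] at h8
    linarith

theorem CoarselyEmbeds.of_injective {G' : Type u} [Group G'] (h : CoarselyEmbeds G) (f : G' →* G)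
    (hf : Function.Injective f) : CoarselyEmbeds G' := by
  obtain ⟨H, i1, i2, i3, ξ, h1, h2⟩ := h
  refine ⟨H, i1, i2, i3, fun g => ξ (f g), fun s => ?_, fun C => ?_⟩
  · obtain ⟨C, hC⟩ := h1 (f s)
    exact ⟨C, fun g => by beta_reduce; rw [map_mul]; exact hC _⟩
  · refine ((h2 C).preimage hf.injOn).subset ?_
    rintro s ⟨g, hg⟩
    refine ⟨f g, ?_⟩
    beta_reduce at hg
    rw [map_mul] at hg
    exact hg

end

/-- The version of `propertyA_of_coarse` for coarse embeddability. -/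
theorem coarselyEmbeds_of_coarse {G : Type u} [Group G] [Countable G] {K : Type w}
    [MulAction G K] {ρ : Type z} (Φ : ρ → Set G) (good : K → Prop)
    (hK : ∀ k : K, good k → CoarselyEmbeds (MulAction.stabilizer G k))
    (hctl : ∀ (F : Finset G) (ε : ℝ), 0 < ε → ∃ (r : ρ) (Y : Type v) (b : G → Y →₀ ℝ),
      (∀ g, IsProb (b g)) ∧ (∀ g, ∀ f ∈ F, n1 (b g - b (g * f)) ≤ ε) ∧
      ∀ g h y, y ∈ (b g).support → y ∈ (b h).support → g⁻¹ * h ∈ Φ r)
    (hloc : ∀ (r : ρ) (F : Finset G) (ε : ℝ), 0 < ε → ∃ (T : Finset K) (ν : G → K →₀ ℝ),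
      (∀ k ∈ T, good k) ∧ (∀ g ∈ Φ r, IsProb (ν g)) ∧
      (∀ g ∈ Φ r, ∀ k ∈ (ν g).support, g⁻¹ • k ∈ T) ∧
      ∀ g ∈ Φ r, ∀ f ∈ F, g * f ∈ Φ r → n1 (ν g - ν (g * f)) ≤ ε) : CoarselyEmbeds G := by
  have h1 : ∀ r, UK (fun _ : Unit => Φ r) := by
    intro r
    refine UK.fib fun F ε hε => ?_
    obtain ⟨T, ν, h0, h1, h2, h3⟩ := hloc r F ε hε
    exact ⟨K, _, ν, UK.of_action T fun k hk => UK.of_coarselyEmbeds (hK k (h0 k hk)), h1,
      fun g hg k hk => h2 g hg k hk, h3⟩
  refine coarselyEmbeds_of_UK (UK.fib fun F ε hε => ?_)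
  obtain ⟨r, Y, b, h2, h3, h4⟩ := hctl F ε hε
  refine ⟨Y, fun y => {g | y ∈ (b g).support}, b, ?_, fun g _ => h2 g, fun g _ y hy => hy,
    fun g _ f hf _ => h3 g f hf⟩
  refine (h1 r).translate.mono fun y => ?_
  by_cases hy : ∃ g, y ∈ (b g).support
  · obtain ⟨g0, hg0⟩ := hy
    exact ⟨(g0, ()), fun g hg => h4 g0 g y hg0 hg⟩
  · exact ⟨(1, ()), fun g hg => absurd ⟨g, hg⟩ hy⟩

end Pool.Agent.H818.CS
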