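import Pool.Graph.R_pool_sql_team_seeded_63374d34.N313.EX.App

/-!
# Uniform property A of families of subsets of a group; the fibering theorem
-/

set_option autoImplicit false

namespace Pool.Agent.H818.CS

open Pool.Agent.N313.EX Finsupp

universe u v w z

/-- Uniform property A of a family of subsets of the group `G` (with its left invariant coarse
structure). -/
def UA {G : Type u} [Group G] {ι : Type v} (P : ι → Set G) : Prop :=
  ∀ (F : Finset G) (ε : ℝ), 0 < ε → ∃ E : Finset G, ∀ i, ∃ μ : G → G →₀ ℝ,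
    (∀ g ∈ P i, IsProb (μ g)) ∧ (∀ g ∈ P i, ∀ x ∈ (μ g).support, g⁻¹ * x ∈ E) ∧
    ∀ g ∈ P i, ∀ f ∈ F, g * f ∈ P i → n1 (μ g - μ (g * f)) ≤ ε

section

variable {G : Type u} [Group G]

theorem UA.mono {ι : Type v} {κ : Type w} {P : ι → Set G} {Q : κ → Set G} (h : UA P)
    (hQ : ∀ j, ∃ i, Q j ⊆ P i) : UA Q := by
  intro F ε hε
  obtain ⟨E, hE⟩ := h F ε hε
  refine ⟨E, fun j => ?_⟩
  obtain ⟨i, hi⟩ := hQ j
  obtain ⟨μ, h1, h2, h3⟩ := hE i
  exact ⟨μ, fun g hg => h1 g (hi hg), fun g hg => h2 g (hi hg),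
    fun g hg f hf hgf => h3 g (hi hg) f hf (hi hgf)⟩

theorem UA.translate {ι : Type v} {P : ι → Set G} (h : UA P) :
    UA (fun p : G × ι => {g | p.1⁻¹ * g ∈ P p.2}) := by
  classical
  intro F ε hε
  obtain ⟨E, hE⟩ := h F ε hε
  refine ⟨E, fun p => ?_⟩
  obtain ⟨a, i⟩ := p
  obtain ⟨μ, h1, h2, h3⟩ := hE i
  refine ⟨fun g => (μ (a⁻¹ * g)).mapDomain fun x => a * x, fun g hg => (h1 _ hg).mapDomain _,
    fun g hg x hx => ?_, fun g hg f hf hgf => ?_⟩
  · obtain ⟨x', hx', rfl⟩ := Finset.mem_image.1 (Finsupp.mapDomain_support hx)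
    have := h2 _ hg x' hx'
    have e : g⁻¹ * (a * x') = (a⁻¹ * g)⁻¹ * x' := by group
    rw [e]
    exact this
  · have e : a⁻¹ * (g * f) = a⁻¹ * g * f := by group
    simp only [Set.mem_ofPred_eq] at hg hgf
    simp only
    rw [e] at hgf ⊢
    rw [← Finsupp.mapDomain_sub]
    exact (n1_mapDomain_le _ _).trans (h3 _ hg f hf hgf)

/-- The fibering theorem. -/
theorem UA.fib {P : Set G} (h : ∀ (F : Finset G) (ε : ℝ), 0 < ε →
    ∃ (Y : Type w) (Q : Y → Set G) (b : G → Y →₀ ℝ), UA Q ∧ (∀ g ∈ P, IsProb (b g)) ∧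
      (∀ g ∈ P, ∀ y ∈ (b g).support, g ∈ Q y) ∧
      ∀ g ∈ P, ∀ f ∈ F, g * f ∈ P → n1 (b g - b (g * f)) ≤ ε) :
    UA (fun _ : Unit => P) := by
  classical
  intro F ε hε
  obtain ⟨Y, Q, b, hQ, hb1, hb2, hb3⟩ := h F (ε / 6) (by positivity)
  obtain ⟨E, hE⟩ := hQ F (ε / 2) (by positivity)
  choose μ h1 h2 h3 using hE
  -- the measures, extended
  let ν : Y → G → G →₀ ℝ := fun y g => if g ∈ Q y then μ y g else Finsupp.single g 1
  have hν : ∀ y g, IsProb (ν y g) := by
    intro y g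
    by_cases hg : g ∈ Q y
    · simp only [ν, if_pos hg]
      exact h1 y g hg
    · simp only [ν, if_neg hg]
      exact IsProb.single g
  have hνe : ∀ y g, g ∈ Q y → ν y g = μ y g := fun y g hg => if_pos hg
  refine ⟨E, fun _ => ⟨fun g => Finsupp.linearCombination ℝ (fun y => ν y g) (b g),
    fun g hg => (hb1 g hg).linComb fun y _ => hν y g, ?_, ?_⟩⟩
  · intro g hg x hx
    beta_reduce at hx
    rw [Finsupp.linearCombination_apply, Finsupp.sum, Finsupp.mem_support_iff,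
      Finsupp.finsetSum_apply] at hx
    obtain ⟨y, hy, hxy⟩ := Finset.exists_ne_zero_of_sum_ne_zero hx
    rw [Finsupp.smul_apply, smul_eq_mul] at hxy
    have h4 := right_ne_zero_of_mul hxy
    rw [hνe y g (hb2 g hg y hy)] at h4
    exact h2 y g (hb2 g hg y hy) x (Finsupp.mem_support_iff.2 h4)
  · intro g hg f hf hgf
    have hd := hb3 g hg f hf hgf
    set b0 := b g with hb0
    set b1 := b (g * f) with hb1'
    have e1 : Finsupp.linearCombination ℝ (fun y => ν y g) b0 -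
        Finsupp.linearCombination ℝ (fun y => ν y (g * f)) b1 =
        Finsupp.linearCombination ℝ (fun y => ν y g) (b0 - b1) +
        Finsupp.linearCombination ℝ (fun y => ν y g - ν y (g * f)) b1 := by
      have e2 : Finsupp.linearCombination ℝ (fun y => ν y g - ν y (g * f)) b1 =
          Finsupp.linearCombination ℝ (fun y => ν y g) b1 -
          Finsupp.linearCombination ℝ (fun y => ν y (g * f)) b1 := by
        simp only [Finsupp.linearCombination_apply, Finsupp.sum, ← Finset.sum_sub_distrib, smul_sub]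
      rw [e2, map_sub]
      abel
    rw [e1]
    have h5 : n1 (Finsupp.linearCombination ℝ (fun y => ν y g) (b0 - b1)) ≤ ε / 6 := by
      refine (n1_linComb_le _ 1 _ fun y _ => (hν y g).n1_eq.le).trans ?_
      rw [mul_one]
      exact hd
    have h6 : n1 (Finsupp.linearCombination ℝ (fun y => ν y g - ν y (g * f)) b1) ≤
        ε / 2 + 2 * (ε / 6) := by
      rw [Finsupp.linearCombination_apply, Finsupp.sum]
      refine (n1_sum_le _ _).trans ?_
      have h7 : ∀ y ∈ b1.support, n1 (b1 y • (ν y g - ν y (g * f))) ≤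
          ε / 2 * |b1 y| + 2 * |(b0 - b1) y| := by
        intro y hy
        rw [n1_smul]
        have hy1 : g * f ∈ Q y := hb2 _ hgf y hy
        by_cases hy0 : y ∈ b0.support
        · have hy2 : g ∈ Q y := hb2 _ hg y hy0
          rw [hνe y g hy2, hνe y _ hy1]
          have h8 := h3 y g hy2 f hf hy1
          have h9 : |b1 y| * n1 (μ y g - μ y (g * f)) ≤ |b1 y| * (ε / 2) :=
            mul_le_mul_of_nonneg_left h8 (abs_nonneg _)
          have h10 : 0 ≤ |(b0 - b1) y| := abs_nonneg _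
          linarith
        · have h8 : b0 y = 0 := Finsupp.notMem_support_iff.1 hy0
          have h9 : n1 (ν y g - ν y (g * f)) ≤ 2 := by
            have h10 := n1_add_le (ν y g) (-(ν y (g * f)))
            rw [n1_neg, (hν y g).n1_eq, (hν y (g * f)).n1_eq, ← sub_eq_add_neg] at h10
            linarith
          have h10 : |b1 y| * n1 (ν y g - ν y (g * f)) ≤ |b1 y| * 2 :=
            mul_le_mul_of_nonneg_left h9 (abs_nonneg _)
          have h11 : |(b0 - b1) y| = |b1 y| := by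
            rw [Finsupp.sub_apply, h8, zero_sub, abs_neg]
          rw [h11]
          have h12 : 0 ≤ ε / 2 * |b1 y| := by positivity
          linarith
      refine (Finset.sum_le_sum h7).trans ?_
      rw [Finset.sum_add_distrib, ← Finset.mul_sum, ← Finset.mul_sum]
      have h8 : ∑ y ∈ b1.support, |b1 y| = 1 := by
        rw [← n1_eq_sum b1 b1.support subset_rfl]
        exact (hb1 _ hgf).n1_eq
      have h9 : ∑ y ∈ b1.support, |(b0 - b1) y| ≤ n1 (b0 - b1) := by
        rw [n1_eq_sum (b0 - b1) (b1.support ∪ (b0 - b1).support) Finset.subset_union_right]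
        exact Finset.sum_le_sum_of_subset_of_nonneg Finset.subset_union_left
          fun _ _ _ => abs_nonneg _
      rw [h8]
      linarith
    have h7 := n1_add_le (Finsupp.linearCombination ℝ (fun y => ν y g) (b0 - b1))
      (Finsupp.linearCombination ℝ (fun y => ν y g - ν y (g * f)) b1)
    linarith

/-- Unions of cosets of stabilizers. -/
theorem UA.of_action {K : Type w} [MulAction G K] (T : Finset K)
    (hK : ∀ k ∈ T, PropertyA (MulAction.stabilizer G k)) :
    UA (fun k : K => {g : G | g⁻¹ • k ∈ T}) := by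
  classical
  intro F ε hε
  -- the transporters
  let h : K → K → G := fun s t => if hst : ∃ h : G, h • s = t then hst.choose else 1
  have hh : ∀ (s t : K) (a : G), a • s = t → h s t • s = t := by
    intro s t a ha
    have hst : ∃ h : G, h • s = t := ⟨a, ha⟩
    simp only [h, dif_pos hst]
    exact hst.choose_spec
  let FF : (s : K) → Finset (MulAction.stabilizer G s) := fun s =>
    ((T ×ˢ F ×ˢ T).image fun p : K × G × K => (h s p.1)⁻¹ * p.2.1 * h s p.2.2).subtype
      (fun x => x ∈ MulAction.stabilizer G s)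
  have hm : ∀ s : K, ∃ (E : Finset (MulAction.stabilizer G s))
      (μ : MulAction.stabilizer G s → MulAction.stabilizer G s →₀ ℝ), s ∈ T →
      (∀ x, IsProb (μ x)) ∧ (∀ x, ∀ g ∈ (μ x).support, x⁻¹ * g ∈ E) ∧
      ∀ x, ∀ f ∈ FF s, n1 (μ x - μ (x * f)) ≤ ε := by
    intro s
    by_cases hs : s ∈ T
    · obtain ⟨E, μ, h1, h2, h3⟩ := hK s hs (FF s) ε hε
      exact ⟨E, μ, fun _ => ⟨h1, h2, h3⟩⟩
    · exact ⟨∅, fun _ => 0, fun h => absurd h hs⟩
  choose EE μ hμ using hm
  refine ⟨(T ×ˢ T).biUnion fun p => (EE p.1).image fun x : MulAction.stabilizer G p.1 =>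
    h p.1 p.2 * (x : G), fun k => ?_⟩
  by_cases hne : ∃ g0 : G, g0⁻¹ • k ∈ T
  · obtain ⟨g0, hg0⟩ := hne
    set s := g0⁻¹ • k with hs
    obtain ⟨hμ1, hμ2, hμ3⟩ := hμ s hg0
    -- for `g` in the set, `g h(s, g⁻¹ k)` lies in `g0 Stab(s)`
    have hq : ∀ g : G, g0⁻¹ * g * h s (g⁻¹ • k) ∈ MulAction.stabilizer G s := by
      intro g
      have h1 : h s (g⁻¹ • k) • s = g⁻¹ • k :=
        hh s _ (g⁻¹ * g0) (by rw [hs, mul_smul, smul_inv_smul])
      rw [MulAction.mem_stabilizer_iff, mul_smul, h1, mul_smul, smul_inv_smul]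
    refine ⟨fun g => (μ s ⟨_, hq g⟩).mapDomain fun x : MulAction.stabilizer G s => g0 * (x : G),
      fun g _ => (hμ1 _).mapDomain _, ?_, ?_⟩
    · intro g hg x hx
      obtain ⟨x', hx', rfl⟩ := Finset.mem_image.1 (Finsupp.mapDomain_support hx)
      have h2 := hμ2 _ x' hx'
      refine Finset.mem_biUnion.2 ⟨(s, g⁻¹ • k), Finset.mem_product.2 ⟨hg0, hg⟩,
        Finset.mem_image.2 ⟨_, h2, ?_⟩⟩
      simp only [Subgroup.coe_mul, Subgroup.coe_inv]
      group
    · intro g hg f hf hgf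
      simp only
      rw [← Finsupp.mapDomain_sub]
      refine (n1_mapDomain_le _ _).trans ?_
      have e : (⟨g0⁻¹ * (g * f) * h s ((g * f)⁻¹ • k), hq (g * f)⟩ : MulAction.stabilizer G s) =
          ⟨g0⁻¹ * g * h s (g⁻¹ • k), hq g⟩ *
          ⟨(h s (g⁻¹ • k))⁻¹ * f * h s ((g * f)⁻¹ • k), by
            have h5 := mul_mem (inv_mem (hq g)) (hq (g * f))
            have e6 : (g0⁻¹ * g * h s (g⁻¹ • k))⁻¹ * (g0⁻¹ * (g * f) * h s ((g * f)⁻¹ • k)) =
              (h s (g⁻¹ • k))⁻¹ * f * h s ((g * f)⁻¹ • k) := by group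
            rw [e6] at h5
            exact h5⟩ := by
        apply Subtype.ext
        simp only [Subgroup.coe_mul]
        group
      rw [e]
      refine hμ3 _ _ ?_
      exact Finset.mem_subtype.2 (Finset.mem_image.2 ⟨(g⁻¹ • k, f, (g * f)⁻¹ • k),
        Finset.mem_product.2 ⟨hg, Finset.mem_product.2 ⟨hf, hgf⟩⟩, rfl⟩)
  · refine ⟨fun _ => 0, fun g hg => absurd ⟨g, hg⟩ hne, fun g hg => absurd ⟨g, hg⟩ hne,
      fun g hg => absurd ⟨g, hg⟩ hne⟩

theorem UA.univ {P : Set G} (hP : ∀ g, g ∈ P) (h : UA (fun _ : Unit => P)) : PropertyA G := by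
  intro F ε hε
  obtain ⟨E, hE⟩ := h F ε hε
  obtain ⟨μ, h1, h2, h3⟩ := hE ()
  exact ⟨E, μ, fun g => h1 g (hP g), fun g => h2 g (hP g), fun g f hf => h3 g (hP g) f hf (hP _)⟩

end

/-- The first version of the abstract theorem. `Φ r` are the coarse stabilizers. -/
theorem propertyA_of_coarse {G : Type u} [Group G] {K : Type w} [MulAction G K]
    {ρ : Type z} (Φ : ρ → Set G) (good : K → Prop)
    (hK : ∀ k : K, good k → PropertyA (MulAction.stabilizer G k))
    (hctl : ∀ (F : Finset G) (ε : ℝ), 0 < ε → ∃ (r : ρ) (Y : Type v) (b : G → Y →₀ ℝ),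
      (∀ g, IsProb (b g)) ∧ (∀ g, ∀ f ∈ F, n1 (b g - b (g * f)) ≤ ε) ∧
      ∀ g h y, y ∈ (b g).support → y ∈ (b h).support → g⁻¹ * h ∈ Φ r)
    (hloc : ∀ (r : ρ) (F : Finset G) (ε : ℝ), 0 < ε → ∃ (T : Finset K) (ν : G → K →₀ ℝ),
      (∀ k ∈ T, good k) ∧ (∀ g ∈ Φ r, IsProb (ν g)) ∧ (∀ g ∈ Φ r, ∀ k ∈ (ν g).support, g⁻¹ • k ∈ T) ∧
      ∀ g ∈ Φ r, ∀ f ∈ F, g * f ∈ Φ r → n1 (ν g - ν (g * f)) ≤ ε) : PropertyA G := by
  have h1 : ∀ r, UA (fun _ : Unit => Φ r) := by
    intro r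
    refine UA.fib fun F ε hε => ?_
    obtain ⟨T, ν, h0, h1, h2, h3⟩ := hloc r F ε hε
    exact ⟨K, _, ν, UA.of_action T fun k hk => hK k (h0 k hk), h1,
      fun g hg k hk => h2 g hg k hk, h3⟩
  refine UA.univ (P := Set.univ) (fun _ => trivial) (UA.fib fun F ε hε => ?_)
  obtain ⟨r, Y, b, h2, h3, h4⟩ := hctl F ε hε
  refine ⟨Y, fun y => {g | y ∈ (b g).support}, b, ?_, fun g _ => h2 g, fun g _ y hy => hy,
    fun g _ f hf _ => h3 g f hf⟩
  refine (h1 r).translate.mono fun y => ?_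
  by_cases hy : ∃ g, y ∈ (b g).support
  · obtain ⟨g0, hg0⟩ := hy
    exact ⟨(g0, ()), fun g hg => h4 g0 g y hg0 hg⟩
  · exact ⟨(1, ()), fun g hg => absurd ⟨g, hg⟩ hy⟩

end Pool.Agent.H818.CS
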