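import Pool.Agent.H818.CS.Fib

/-!
# Positive semidefinite kernels
-/

set_option autoImplicit false

namespace Pool.Agent.H818.CS

open Finsupp

universe u v w z

section ker

variable {G : Type u} {G' : Type v}

/-- The bilinear form of a kernel. -/
noncomputable def BK (K : G → G → ℝ) : (G →₀ ℝ) →ₗ[ℝ] (G →₀ ℝ) →ₗ[ℝ] ℝ :=
  Finsupp.linearCombination ℝ fun g => Finsupp.linearCombination ℝ fun h => K g h

lemma BK_apply (K : G → G → ℝ) (a b : G →₀ ℝ) :
    BK K a b = ∑ g ∈ a.support, ∑ h ∈ b.support, a g * (b h * K g h) := by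
  rw [BK, Finsupp.linearCombination_apply, Finsupp.sum, LinearMap.sum_apply]
  refine Finset.sum_congr rfl fun g _ => ?_
  rw [LinearMap.smul_apply, Finsupp.linearCombination_apply, Finsupp.sum, smul_eq_mul,
    Finset.mul_sum]
  rfl

lemma BK_single (K : G → G → ℝ) (g h : G) (s t : ℝ) :
    BK K (single g s) (single h t) = s * t * K g h := by
  simp [BK, mul_assoc]

/-- Symmetric positive semidefinite kernels. -/
structure Ker (K : G → G → ℝ) : Prop where
  symm : ∀ g h, K g h = K h g
  psd : ∀ a, 0 ≤ BK K a a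

lemma BK_symm {K : G → G → ℝ} (h : Ker K) (a b : G →₀ ℝ) : BK K a b = BK K b a := by
  rw [BK_apply, BK_apply, Finset.sum_comm]
  refine Finset.sum_congr rfl fun g _ => Finset.sum_congr rfl fun h' _ => ?_
  rw [h.symm h' g]
  ring

lemma BK_pull (K : G' → G' → ℝ) (T : G → G' →₀ ℝ) (a b : G →₀ ℝ) :
    BK (fun g h => BK K (T g) (T h)) a b =
      BK K (Finsupp.linearCombination ℝ T a) (Finsupp.linearCombination ℝ T b) := by
  rw [BK_apply, Finsupp.linearCombination_apply, Finsupp.linearCombination_apply, Finsupp.sum,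
    Finsupp.sum]
  simp only [map_sum, LinearMap.sum_apply, map_smul, LinearMap.smul_apply, smul_eq_mul]
  rw [Finset.sum_comm]
  refine Finset.sum_congr rfl fun g _ => ?_
  rw [Finset.mul_sum]
  refine Finset.sum_congr rfl fun h _ => ?_
  ring

lemma Ker.pull {K : G' → G' → ℝ} (hK : Ker K) (T : G → G' →₀ ℝ) :
    Ker fun g h => BK K (T g) (T h) :=
  ⟨fun _ _ => BK_symm hK _ _, fun a => by rw [BK_pull]; exact hK.psd _⟩

lemma Ker.comp {K : G' → G' → ℝ} (hK : Ker K) (q : G → G') : Ker fun g h => K (q g) (q h) := by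
  have := hK.pull fun g => single (q g) 1
  simpa only [BK_single, mul_one, one_mul] using this

lemma Ker.mul_fun {K : G → G → ℝ} (hK : Ker K) (φ : G → ℝ) :
    Ker fun g h => φ g * φ h * K g h := by
  have := hK.pull fun g => single g (φ g)
  simpa only [BK_single] using this

lemma Ker.one : Ker fun _ _ : G => (1 : ℝ) := by
  refine ⟨fun _ _ => rfl, fun a => ?_⟩
  rw [BK_apply]
  have : ∑ g ∈ a.support, ∑ h ∈ a.support, a g * (a h * 1) = (∑ g ∈ a.support, a g) ^ 2 := by
    rw [sq, Finset.sum_mul_sum]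
    simp
  rw [this]
  exact sq_nonneg _

lemma Ker.smul {K : G → G → ℝ} (hK : Ker K) {c : ℝ} (hc : 0 ≤ c) : Ker fun g h => c * K g h := by
  refine ⟨fun g h => by rw [hK.symm], fun a => ?_⟩
  have h1 := hK.psd a
  rw [BK_apply] at h1 ⊢
  have : ∑ g ∈ a.support, ∑ h ∈ a.support, a g * (a h * (c * K g h)) =
      c * ∑ g ∈ a.support, ∑ h ∈ a.support, a g * (a h * K g h) := by
    rw [Finset.mul_sum]
    refine Finset.sum_congr rfl fun g _ => ?_
    rw [Finset.mul_sum]
    exact Finset.sum_congr rfl fun h _ => by ring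
  rw [this]
  exact mul_nonneg hc h1

lemma Ker.sum {ι : Type w} (S : Finset ι) {K : ι → G → G → ℝ} (hK : ∀ i ∈ S, Ker (K i)) :
    Ker fun g h => ∑ i ∈ S, K i g h := by
  refine ⟨fun g h => Finset.sum_congr rfl fun i hi => (hK i hi).symm g h, fun a => ?_⟩
  have : BK (fun g h => ∑ i ∈ S, K i g h) a a = ∑ i ∈ S, BK (K i) a a := by
    simp only [BK_apply, Finset.mul_sum]
    rw [Finset.sum_comm (s := S)]
    refine Finset.sum_congr rfl fun g _ => ?_
    rw [Finset.sum_comm]
  rw [this]
  exact Finset.sum_nonneg fun i hi => (hK i hi).psd a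

/-- Positivity is a local property. -/
lemma Ker.of_local {K : G → G → ℝ}
    (h : ∀ A : Finset G, ∃ K' : G → G → ℝ, Ker K' ∧ ∀ g ∈ A, ∀ h ∈ A, K g h = K' g h) : Ker K := by
  classical
  refine ⟨fun g g' => ?_, fun a => ?_⟩
  · obtain ⟨K', h1, h2⟩ := h {g, g'}
    rw [h2 g (by simp) g' (by simp), h2 g' (by simp) g (by simp), h1.symm]
  · obtain ⟨K', h1, h2⟩ := h a.support
    have h3 := h1.psd a
    rw [BK_apply] at h3 ⊢
    refine h3.trans_eq (Finset.sum_congr rfl fun g hg => Finset.sum_congr rfl fun g' hg' => ?_)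
    rw [h2 g hg g' hg']

lemma Ker.of_hasSum {K : ℕ → G → G → ℝ} {L : G → G → ℝ} (hK : ∀ n, Ker (K n))
    (h : ∀ g h, HasSum (fun n => K n g h) (L g h)) : Ker L := by
  refine ⟨fun g g' => ?_, fun a => ?_⟩
  · refine (h g g').unique ?_
    simp only [(hK _).symm g g']
    exact h g' g
  · have h1 : HasSum (fun n => BK (K n) a a) (BK L a a) := by
      simp only [BK_apply]
      exact hasSum_sum fun g _ => hasSum_sum fun g' _ => ((h g g').mul_left _).mul_left _
    exact h1.nonneg fun n => (hK n).psd a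

lemma Ker.mul_inner {H : Type w} [NormedAddCommGroup H] [InnerProductSpace ℝ H] (f : G → H)
    {K : G → G → ℝ} (hK : Ker K) : Ker fun g h => K g h * inner ℝ (f g) (f h) := by
  classical
  refine Ker.of_local fun A => ?_
  let V : Submodule ℝ H := Submodule.span ℝ (f '' A)
  have hfin : (f '' (A : Set G)).Finite := A.finite_toSet.image f
  have : FiniteDimensional ℝ V := FiniteDimensional.span_of_finite ℝ hfin
  let e := stdOrthonormalBasis ℝ V
  refine ⟨fun g h => ∑ i, (inner ℝ (f g) (e i : H)) * (inner ℝ (f h) (e i : H)) * K g h,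
    Ker.sum _ fun i _ => hK.mul_fun fun g => inner ℝ (f g) (e i : H), fun g hg h hh => ?_⟩
  have hgV : f g ∈ V := Submodule.subset_span ⟨g, hg, rfl⟩
  have hhV : f h ∈ V := Submodule.subset_span ⟨h, hh, rfl⟩
  have h1 := e.sum_inner_mul_inner (⟨f g, hgV⟩ : V) ⟨f h, hhV⟩
  have h2 : inner ℝ (f g) (f h) = ∑ i, inner ℝ (f g) (e i : H) * inner ℝ (f h) (e i : H) := by
    have h3 : inner ℝ (⟨f g, hgV⟩ : V) ⟨f h, hhV⟩ = inner ℝ (f g) (f h) := rfl
    rw [← h3, ← h1]
    refine Finset.sum_congr rfl fun i _ => ?_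
    have h4 : inner ℝ (e i) (⟨f h, hhV⟩ : V) = inner ℝ (f h) (e i : H) := by
      rw [real_inner_comm]
      rfl
    rw [h4]
    rfl
  rw [h2, Finset.mul_sum]
  exact Finset.sum_congr rfl fun i _ => by ring

/-- Schoenberg's theorem. -/
lemma Ker.schoenberg {H : Type w} [NormedAddCommGroup H] [InnerProductSpace ℝ H] (f : G → H)
    {t : ℝ} (ht : 0 ≤ t) : Ker fun g h => Real.exp (-t * ‖f g - f h‖ ^ 2) := by
  have h1 : ∀ n : ℕ, Ker fun g h => (inner ℝ (f g) (f h)) ^ n := by
    intro n
    induction n with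
    | zero => simpa using Ker.one
    | succ n ih =>
      have := ih.mul_inner f
      simpa only [pow_succ] using this
  have h2 : Ker fun g h => Real.exp (2 * t * inner ℝ (f g) (f h)) := by
    refine Ker.of_hasSum (K := fun n g h => ((2 * t) ^ n / n.factorial) * (inner ℝ (f g) (f h)) ^ n)
      (fun n => (h1 n).smul (by positivity)) fun g h => ?_
    have h3 := NormedSpace.expSeries_div_hasSum_exp (𝔸 := ℝ) (2 * t * inner ℝ (f g) (f h))
    rw [← Real.exp_eq_exp_ℝ] at h3
    have h4 : (fun n : ℕ => ((2 * t) ^ n / n.factorial) * (inner ℝ (f g) (f h)) ^ n) =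
        fun n : ℕ => (2 * t * inner ℝ (f g) (f h)) ^ n / n.factorial := by
      funext n
      rw [mul_pow (2 * t)]
      ring
    rw [h4]
    exact h3
  have h3 := h2.mul_fun fun g => Real.exp (-t * ‖f g‖ ^ 2)
  convert h3 using 3 with g h
  rw [← Real.exp_add, ← Real.exp_add, norm_sub_sq_real]
  congr 1
  ring

/-- The Kolmogorov construction. -/
theorem Ker.kolmogorov {K : G → G → ℝ} (hK : Ker K) :
    ∃ (H : Type u) (_ : NormedAddCommGroup H) (_ : InnerProductSpace ℝ H) (_ : CompleteSpace H)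
      (ξ : G → H), ∀ g h, inner ℝ (ξ g) (ξ h) = K g h := by
  let core : PreInnerProductSpace.Core ℝ (G →₀ ℝ) :=
    { inner := fun a b => BK K a b
      conj_inner_symm := fun a b => by
        simp only [conj_trivial]
        exact BK_symm hK _ _
      re_inner_nonneg := fun a => hK.psd a
      add_left := fun a b c => by rw [map_add, LinearMap.add_apply]
      smul_left := fun a b r => by
        rw [map_smul, LinearMap.smul_apply, smul_eq_mul, conj_trivial] }
  let i1 : SeminormedAddCommGroup (G →₀ ℝ) :=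
    @InnerProductSpace.Core.toSeminormedAddCommGroup ℝ (G →₀ ℝ) _ _ _ core
  let i2 : InnerProductSpace ℝ (G →₀ ℝ) := InnerProductSpace.ofCore core
  refine ⟨UniformSpace.Completion (G →₀ ℝ), inferInstance, inferInstance, inferInstance,
    fun g => ((single g 1 : G →₀ ℝ) : UniformSpace.Completion (G →₀ ℝ)), fun g h => ?_⟩
  rw [UniformSpace.Completion.inner_coe]
  show BK K (single g 1) (single h 1) = K g h
  rw [BK_single]
  ring

end ker

end Pool.Agent.H818.CS
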