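import Mathlib

/-!
# Uniformly convex metric spaces, property A of metric spaces
-/

set_option autoImplicit false

namespace Pool.Agent.H818.CS

universe v

/-- Uniform convexity of the metric space `X`: there is a map `m : X × X → X` such that, for
all `r` and `ε > 0`, there is `η > 0` such that, for all points `x, y` at distance at least `ε`,
every ball of radius `ρ ≤ r` that contains `x` and `y` contains `m x y`, even after its radius is
diminished by `η`. -/
def UniformlyConvex (X : Type v) [PseudoMetricSpace X] : Prop :=
  ∃ m : X → X → X, ∀ r ε : ℝ, 0 < ε → ∃ η : ℝ, 0 < η ∧ ∀ x y c : X, ∀ ρ : ℝ, ρ ≤ r →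
    dist c x ≤ ρ → dist c y ≤ ρ → ε ≤ dist x y → dist c (m x y) ≤ ρ - η

/-- `f` is a probability measure with finite support on the set `Y`. -/
def Prob {Y : Type*} (f : Y →₀ ℝ) : Prop := (∀ y, 0 ≤ f y) ∧ (f.sum fun _ a => a) = 1

/-- The `ℓ¹`-norm of a function with finite support. -/
noncomputable def norm1 {Y : Type*} (f : Y →₀ ℝ) : ℝ := f.sum fun _ a => |a|

/-- Property A of the metric space `X`, which need not have bounded geometry: for all `R` and
`ε > 0` there are `S` and probability measures `b x`, for `x` in `X`, supported in the ball of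
radius `S` around `x`, such that `b x` and `b y` have `ℓ¹`-distance at most `ε` if `x` and `y` have
distance at most `R`. -/
def MetricPropertyA (X : Type v) [PseudoMetricSpace X] : Prop :=
  ∀ R ε : ℝ, 0 < ε → ∃ (S : ℝ) (b : X → X →₀ ℝ), (∀ x, Prob (b x)) ∧
    (∀ x y, b x y ≠ 0 → dist x y ≤ S) ∧ ∀ x y, dist x y ≤ R → norm1 (b x - b y) ≤ ε

end Pool.Agent.H818.CS
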