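import Pool.Agent.H818.CS.Chain
import Pool.Agent.H818.CS.CE
import Pool.Agent.H818.CS.UCDefs

/-!
# Groups acting on uniformly convex metric spaces with property A
-/

set_option autoImplicit false

namespace Pool.Agent.H818.CS

open Pool.Agent.N313.EX Finsupp
open Pool.Agent.N506.EX (IsExact CoarselyEmbeds)

universe u v w

lemma prob_iff {Y : Type*} (f : Y →₀ ℝ) : Prob f ↔ IsProb f := Iff.rfl

lemma norm1_eq {Y : Type*} (f : Y →₀ ℝ) : norm1 f = n1 f := rfl

/-- The spaces with midpoints and the inequality of Bruhat and Tits (for instance, the `CAT(0)`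
spaces) are uniformly convex. -/
theorem uniformlyConvex_of_bruhatTits {X : Type v} [PseudoMetricSpace X]
    (h : ∀ x y : X, ∃ m : X, ∀ c : X,
      dist c m ^ 2 ≤ (dist c x ^ 2 + dist c y ^ 2) / 2 - dist x y ^ 2 / 4) :
    UniformlyConvex X := by
  choose m hm using h
  refine ⟨m, fun r ε hε => ?_⟩
  refine ⟨ε ^ 2 / (8 * (|r| + 1)), by positivity, fun x y c ρ hρ hx hy hxy => ?_⟩
  have h0 : 0 ≤ ρ := dist_nonneg.trans hx
  have hr : ρ ≤ |r| + 1 := hρ.trans ((le_abs_self r).trans (by linarith))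
  have h1 := hm x y c
  have h2 : dist c x ^ 2 ≤ ρ ^ 2 := pow_le_pow_left₀ dist_nonneg hx 2
  have h3 : dist c y ^ 2 ≤ ρ ^ 2 := pow_le_pow_left₀ dist_nonneg hy 2
  have h4 : ε ^ 2 ≤ dist x y ^ 2 := pow_le_pow_left₀ hε.le hxy 2
  have h5 : dist c (m x y) ^ 2 ≤ ρ ^ 2 - ε ^ 2 / 4 := by linarith
  set a := |r| + 1 with ha
  have ha0 : 0 < a := by positivity
  set η := ε ^ 2 / (8 * a) with hη
  have hη0 : 0 < η := by positivity
  have e1 : 8 * a * η = ε ^ 2 := by
    rw [hη]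
    field_simp
  by_contra hcon
  push Not at hcon
  -- `ρ > η`: otherwise `ε ^ 2 / 4 ≤ ρ ^ 2` is small
  have h6 : ε ^ 2 / 4 ≤ ρ ^ 2 := by
    have := sq_nonneg (dist c (m x y))
    linarith
  have h7 : η ≤ ρ := by
    by_contra h8
    push Not at h8
    have h9 : ρ ^ 2 < ρ * η + 0 ∨ ρ = 0 := by
      rcases h0.eq_or_lt with h | h
      · exact Or.inr h.symm
      · left
        nlinarith
    have h10 : 0 < ε ^ 2 := by positivity
    rcases h9 with h | h
    · nlinarith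
    · rw [h] at h6
      nlinarith
  have h8 : (ρ - η) ^ 2 < dist c (m x y) ^ 2 := pow_lt_pow_left₀ hcon (by linarith) two_ne_zero
  nlinarith

section

variable {G : Type u} [Group G] {X : Type v} [PseudoMetricSpace X] [MulAction G X]
  [IsIsometricSMul G X]

theorem uc_ctl (hA : MetricPropertyA X) (o : X) (F : Finset G) (ε : ℝ) (hε : 0 < ε) :
    ∃ (r : ℝ) (Y : Type v) (b : G → Y →₀ ℝ),
      (∀ g, IsProb (b g)) ∧ (∀ g, ∀ f ∈ F, n1 (b g - b (g * f)) ≤ ε) ∧
      ∀ g h y, y ∈ (b g).support → y ∈ (b h).support →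
        g⁻¹ * h ∈ {g : G | dist o (g • o) ≤ r} := by
  classical
  obtain ⟨R, hR⟩ : ∃ R : ℝ, ∀ f ∈ F, dist o (f • o) ≤ R := by
    obtain ⟨R, hR⟩ := (F.image fun f => dist o (f • o)).bddAbove
    exact ⟨R, fun f hf => hR (Finset.mem_coe.2 (Finset.mem_image_of_mem _ hf))⟩
  obtain ⟨S, b, h1, h2, h3⟩ := hA R ε hε
  refine ⟨2 * S, X, fun g => b (g • o), fun g => h1 _, fun g f hf => h3 _ _ ?_, ?_⟩
  · rw [mul_smul, dist_smul]
    exact hR f hf
  · intro g h y hg hh
    have h4 := h2 _ _ (Finsupp.mem_support_iff.1 hg)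
    have h5 := h2 _ _ (Finsupp.mem_support_iff.1 hh)
    simp only [Set.mem_ofPred_eq]
    have e1 : dist o ((g⁻¹ * h) • o) = dist (g • o) (h • o) := by
      rw [mul_smul, ← dist_smul g o, smul_inv_smul]
    rw [e1]
    have := dist_triangle_right (g • o) (h • o) y
    linarith

theorem uc_loc (hX : UniformlyConvex X) {K : Type w} [MulAction G K]
    (ζ : X → K →₀ ℝ) (hζ : ∀ x, IsProb (ζ x))
    (heq : ∀ (g : G) x, ζ (g • x) = (ζ x).mapDomain fun k => g • k)
    (huc : ∀ ε : ℝ, 0 < ε → ∃ δ : ℝ, 0 < δ ∧ ∀ x y, dist x y < δ → n1 (ζ x - ζ y) ≤ ε)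
    (o : X) (r : ℝ) (F : Finset G) (ε : ℝ) (hε : 0 < ε) :
    ∃ (T : Finset K) (ν : G → K →₀ ℝ), (∀ k ∈ T, ∃ x, k ∈ (ζ x).support) ∧
      (∀ g, IsProb (ν g)) ∧ (∀ g, ∀ k ∈ (ν g).support, g⁻¹ • k ∈ T) ∧
      ∀ g, dist o (g • o) ≤ r → ∀ f ∈ F, dist o ((g * f) • o) ≤ r → n1 (ν g - ν (g * f)) ≤ ε := by
  obtain ⟨m, hm⟩ := hX
  have c2 : ∃ η : ℝ, 0 < η ∧ ∀ (g : G) (p q : X), dist o (g • p) ≤ r →
      dist o (g • q) ≤ r → dist o (g • p) ≤ dist o (g • m p q) + η →
      dist o (g • q) ≤ dist o (g • m p q) + η → n1 (ζ (g • p) - ζ (g • q)) ≤ ε / 2 := by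
    obtain ⟨δ, hδ, hδ'⟩ := huc (ε / 2) (by positivity)
    obtain ⟨η, hη, hη'⟩ := hm r δ hδ
    refine ⟨η / 2, by positivity, fun g p q hp hq h4 h5 => ?_⟩
    refine hδ' _ _ ?_
    by_contra hcon
    push Not at hcon
    rw [dist_smul] at hcon
    have e : ∀ z : X, dist o (g • z) = dist (g⁻¹ • o) z := fun z => by
      rw [← dist_smul g⁻¹ o (g • z), inv_smul_smul]
    have h6 := hη' p q (g⁻¹ • o) (max (dist o (g • p)) (dist o (g • q))) (max_le hp hq)
      (by rw [← e p]; exact le_max_left _ _) (by rw [← e q]; exact le_max_right _ _) hcon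
    rw [← e] at h6
    rcases max_choice (dist o (g • p)) (dist o (g • q)) with h | h
    · rw [h] at h6
      linarith
    · rw [h] at h6
      linarith
  exact chain (G := G) m ζ hζ heq (fun x => dist o x) (fun _ => dist_nonneg) o r F ε hε c2

/-- Let the group `G` act by isometries on a uniformly convex metric space `X` with property A,
and let `ζ` be a uniformly continuous `G`-map from `X` to the finitely supported probability
measures on a `G`-set with stabilizers with property A. Then `G` has property A. -/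
theorem propertyA_of_uniformlyConvex [Nonempty X] (hX : UniformlyConvex X)
    (hA : MetricPropertyA X) {K : Type w} [MulAction G K] (ζ : X → K →₀ ℝ)
    (hK : ∀ k : K, (∃ x, k ∈ (ζ x).support) → PropertyA (MulAction.stabilizer G k))
    (hζ : ∀ x, IsProb (ζ x))
    (heq : ∀ (g : G) x, ζ (g • x) = (ζ x).mapDomain fun k => g • k)
    (huc : ∀ ε : ℝ, 0 < ε → ∃ δ : ℝ, 0 < δ ∧ ∀ x y, dist x y < δ → n1 (ζ x - ζ y) ≤ ε) :
    PropertyA G := by
  let o : X := Classical.arbitrary X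
  refine propertyA_of_coarse (ρ := ℝ) (fun r => {g : G | dist o (g • o) ≤ r})
    (fun k : K => ∃ x, k ∈ (ζ x).support) hK (uc_ctl hA o) ?_
  intro r F ε hε
  obtain ⟨T, ν, h0, h1, h2, h3⟩ := uc_loc hX ζ hζ heq huc o r F ε hε
  exact ⟨T, ν, h0, fun g _ => h1 g, fun g _ => h2 g, fun g hg f hf hgf => h3 g hg f hf hgf⟩

theorem coarselyEmbeds_of_uniformlyConvex [Countable G] [Nonempty X] (hX : UniformlyConvex X)
    (hA : MetricPropertyA X) {K : Type w} [MulAction G K] (ζ : X → K →₀ ℝ)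
    (hK : ∀ k : K, (∃ x, k ∈ (ζ x).support) → CoarselyEmbeds (MulAction.stabilizer G k))
    (hζ : ∀ x, IsProb (ζ x))
    (heq : ∀ (g : G) x, ζ (g • x) = (ζ x).mapDomain fun k => g • k)
    (huc : ∀ ε : ℝ, 0 < ε → ∃ δ : ℝ, 0 < δ ∧ ∀ x y, dist x y < δ → n1 (ζ x - ζ y) ≤ ε) :
    CoarselyEmbeds G := by
  let o : X := Classical.arbitrary X
  refine coarselyEmbeds_of_coarse (ρ := ℝ) (fun r => {g : G | dist o (g • o) ≤ r})
    (fun k : K => ∃ x, k ∈ (ζ x).support) hK (uc_ctl hA o) ?_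
  intro r F ε hε
  obtain ⟨T, ν, h0, h1, h2, h3⟩ := uc_loc hX ζ hζ heq huc o r F ε hε
  exact ⟨T, ν, h0, fun g _ => h1 g, fun g _ => h2 g, fun g hg f hf hgf => h3 g hg f hf hgf⟩

end

end Pool.Agent.H818.CS
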